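import Pool.Agent.U954.PO.Mad
import Pool.Agent.U954.PO.Ord

/-!
# Comparison of `t(n)^(1/n)` and `t(m)^(1/m)` for fixed polyominoes

Let `t n` be the number of fixed polyominoes with `n` cells and `τ n = t(n)^(1/n)`. We prove that
`τ n < τ m` for all `m ≥ C n log n`, and that among the integers `j` between `n` and `C n log n` there are at
least `c √n` with `τ j < τ (j + 1)`. Moreover `τ n < τ (2 n + s)` for large `n` and `1 ≤ s ≤ exp(c √(log n))`.

Proof. Two polyominoes of size `n` can be glued by one cell at each relative height; the gluing cell is the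
unique cell whose removal leaves two pieces of size `n`. As the mean number of rows is at least `√n / 2`,
this gives `t(n)^2 √n ≤ 4 t(2 n + 1)`, hence `-log (t(n) / lam^n) ≥ c log n`. On the other hand
`-log (t(m) / lam^m) ≤ K (log m)^2`. This gives the first part. For the second part the increments of
`log t(j) / j` over the interval are added; each one is at most `C log n / n^(3/2)` by the estimate
`|log (t(j+1)/t(j)) - log lam| ≤ C log j / √j`.
-/

set_option autoImplicit false

namespace Pool.Agent.Results.MP_d1c5d3_co.FarComparison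

open Filter Topology Finset Pool.Agent.N789 Pool.Agent.N789.Kl Pool.Agent.U954.PO

/-- `log (t(n) / lam^n) / n` -/
noncomputable def D (n : ℕ) : ℝ := Real.log (aa n) / n

lemma lt_of_D {n m : ℕ} (hn : 1 ≤ n) (hm : 1 ≤ m) (h : D n < D m) :
    (Kl.t n : ℝ) ^ ((1 : ℝ) / n) < (Kl.t m : ℝ) ^ ((1 : ℝ) / m) := by
  have hl := lam_pos
  have key : ∀ k : ℕ, 1 ≤ k → (Kl.t k : ℝ) ^ ((1 : ℝ) / k) = Real.exp (D k + Real.log lam) := by
    intro k hk
    have hk0 : (0 : ℝ) < k := by positivity
    have h1 := aa_pos hk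
    rw [t_eq_aa k, Real.rpow_def_of_pos (by positivity), Real.log_mul (by positivity) (by positivity),
      Real.log_pow]
    congr 1
    unfold D
    field_simp
  rw [key n hn, key m hm]
  apply Real.exp_lt_exp.2
  linarith

/-- the choice of the constant -/
lemma far {c K : ℝ} (hc : 0 < c) (hK : 0 ≤ K) : ∃ C : ℝ, 8 ≤ C ∧ ∀ n : ℕ, 2 ≤ n → ∀ m : ℝ,
    C * (n * Real.log n) ≤ m → K * Real.log m ^ 2 / m ≤ c * (Real.log n / n) := by
  have h1 := (Real.tendsto_pow_mul_exp_neg_atTop_nhds_zero 2).const_mul (16 * K)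
  rw [mul_zero] at h1
  obtain ⟨s, hs1, hs2⟩ := ((h1.eventually (gt_mem_nhds hc)).and (eventually_ge_atTop 3)).exists
  have he3 : (8 : ℝ) ≤ Real.exp s := by
    have h2 : (2.7 : ℝ) ≤ Real.exp 1 := by
      have := Real.exp_one_gt_d9
      linarith
    have h3 : Real.exp 3 = Real.exp 1 ^ 3 := by
      rw [← Real.exp_nat_mul]
      norm_num
    have h4 : (2.7 : ℝ) ^ 3 ≤ Real.exp 1 ^ 3 := by gcongr
    have h5 : Real.exp 3 ≤ Real.exp s := Real.exp_le_exp.2 hs2
    norm_num at h4
    linarith
  refine ⟨Real.exp s, he3, fun n hn m hm => ?_⟩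
  have hn0 : (2 : ℝ) ≤ n := by exact_mod_cast hn
  have hlog2 : (0.69 : ℝ) < Real.log 2 := by
    have := Real.log_two_gt_d9
    linarith
  have hlogn : Real.log 2 ≤ Real.log n := Real.log_le_log (by norm_num) hn0
  have hL : 0 < Real.log n := by linarith
  set x := Real.exp s * (n * Real.log n) with hx
  have hx2 : Real.exp 2 ≤ x := by
    have h2 : Real.exp 2 ≤ Real.exp s := Real.exp_le_exp.2 (by linarith)
    have h3 : (1 : ℝ) ≤ n * Real.log n := by nlinarith
    rw [hx]
    nlinarith [Real.exp_pos s]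
  have hx0 : 0 < x := lt_of_lt_of_le (Real.exp_pos 2) hx2
  have hm0 : 0 < m := lt_of_lt_of_le hx0 hm
  have hanti := Real.log_div_sqrt_antitoneOn hx2 (hx2.trans hm) hm
  simp only at hanti
  have he : ∀ y : ℝ, 0 < y → Real.log y ^ 2 / y = (Real.log y / Real.sqrt y) ^ 2 := by
    intro y hy
    rw [div_pow, Real.sq_sqrt hy.le]
  have hlogm : 0 ≤ Real.log m := Real.log_nonneg (by
    have : (1 : ℝ) ≤ Real.exp 2 := Real.one_le_exp (by norm_num)
    linarith)
  have h3 : Real.log m ^ 2 / m ≤ Real.log x ^ 2 / x := by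
    rw [he m hm0, he x hx0]
    have : 0 ≤ Real.log m / Real.sqrt m := by positivity
    gcongr
  have h4 : Real.log x ≤ (2 * s + 2) * Real.log n := by
    rw [hx, Real.log_mul (by positivity) (by positivity), Real.log_exp,
      Real.log_mul (by positivity) (by positivity)]
    have h5 : Real.log (Real.log n) ≤ Real.log n := by
      have := Real.log_le_sub_one_of_pos hL
      linarith
    nlinarith
  have h5 : 0 ≤ Real.log x := Real.log_nonneg (by
    have : (1 : ℝ) ≤ Real.exp 2 := Real.one_le_exp (by norm_num)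
    linarith)
  have h6 : Real.log x ^ 2 ≤ 16 * s ^ 2 * Real.log n ^ 2 := by
    have h7 : Real.log x ^ 2 ≤ ((2 * s + 2) * Real.log n) ^ 2 := by gcongr
    have h8 : (2 * s + 2) ^ 2 ≤ 16 * s ^ 2 := by nlinarith
    calc Real.log x ^ 2 ≤ ((2 * s + 2) * Real.log n) ^ 2 := h7
      _ = (2 * s + 2) ^ 2 * Real.log n ^ 2 := by ring
      _ ≤ 16 * s ^ 2 * Real.log n ^ 2 := by gcongr
  have h7 : Real.log x ^ 2 / x ≤ 16 * (s ^ 2 * Real.exp (-s)) * (Real.log n / n) := by
    rw [div_le_iff₀ hx0, hx, Real.exp_neg]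
    refine h6.trans (le_of_eq ?_)
    field_simp
  calc K * Real.log m ^ 2 / m = K * (Real.log m ^ 2 / m) := by ring
    _ ≤ K * (16 * (s ^ 2 * Real.exp (-s)) * (Real.log n / n)) := by
        gcongr
        exact h3.trans h7
    _ = 16 * K * (s ^ 2 * Real.exp (-s)) * (Real.log n / n) := by ring
    _ ≤ c * (Real.log n / n) := by gcongr

/-- increments -/
lemma incr : ∃ B : ℝ, 0 < B ∧ ∀ n j : ℕ, 2 ≤ n → n ≤ j →
    D (j + 1) - D j ≤ B * (Real.log n / (n * Real.sqrt n)) := by
  obtain ⟨C, hC, hord⟩ := orders' 1 le_rfl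
  obtain ⟨K, hK, hlow⟩ := Pool.Agent.N505.AP.low
  have hl := lam_pos
  refine ⟨C + 2 * K, by positivity, fun n j hn hj => ?_⟩
  have hj2 : 2 ≤ j := hn.trans hj
  have hjr : (2 : ℝ) ≤ j := by exact_mod_cast hj2
  have hnr : (2 : ℝ) ≤ n := by exact_mod_cast hn
  have hj0 : (0 : ℝ) < j := by linarith
  have hn0 : (0 : ℝ) < n := by linarith
  have h1 := hord j hj2
  have h2 : |Real.log (aa j) - Real.log (aa (j + 1))| ≤ C * (Real.log j / Real.sqrt j) := by
    have e : ∑ i ∈ range (1 + 1), (-1 : ℝ) ^ i * ((1 : ℕ).choose i : ℝ) *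
      Real.log ((t (j + i) : ℝ) / lam ^ (j + i)) = Real.log (aa j) - Real.log (aa (j + 1)) := by
      rw [sum_range_succ, sum_range_one]
      unfold aa
      simp
      ring
    rw [e, pow_one] at h1
    exact h1
  have h3 : -Real.log (aa j) ≤ K * Real.log j ^ 2 := by
    have h4 := hlow j hj2
    have h5 := aa_pos (n := j) (by omega)
    have h6 : 1 ≤ aa j * Real.exp (K * Real.log j ^ 2) := by
      unfold aa
      rw [div_mul_eq_mul_div, le_div_iff₀ (by positivity), one_mul]
      exact h4
    have h7 := Real.log_nonneg h6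
    rw [Real.log_mul h5.ne' (Real.exp_pos _).ne', Real.log_exp] at h7
    linarith
  have hlogj : 0 < Real.log j := Real.log_pos (by linarith)
  have hs : 0 < Real.sqrt j := Real.sqrt_pos.2 hj0
  have hss : Real.sqrt j * Real.sqrt j = j := Real.mul_self_sqrt hj0.le
  set h := Real.log j / Real.sqrt j with hh
  have hh2 : h ≤ 2 := by
    rw [hh, div_le_iff₀ hs]
    have h4 : Real.log j = 2 * Real.log (Real.sqrt j) := by
      rw [Real.log_sqrt hj0.le]
      ring
    have h5 := Real.log_le_sub_one_of_pos hs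
    linarith
  have hh0 : 0 < h := by positivity
  have hlj : Real.log j ^ 2 = h ^ 2 * j := by
    rw [hh, div_pow, Real.sq_sqrt hj0.le]
    field_simp
  have h4 : D (j + 1) - D j ≤ (C + 2 * K) * (h / j) := by
    have e : D (j + 1) - D j = (Real.log (aa (j + 1)) - Real.log (aa j)) / (j + 1) +
        -Real.log (aa j) / (j * (j + 1)) := by
      unfold D
      push_cast
      field_simp
      ring
    rw [e]
    have h5 : Real.log (aa (j + 1)) - Real.log (aa j) ≤ C * h := by
      have := (abs_le.1 h2).1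
      linarith
    have h6 : (Real.log (aa (j + 1)) - Real.log (aa j)) / (j + 1) ≤ C * h / j := by
      calc (Real.log (aa (j + 1)) - Real.log (aa j)) / (j + 1) ≤ C * h / (j + 1) := by gcongr
        _ ≤ C * h / j := by
            apply div_le_div_of_nonneg_left (by positivity) hj0
            linarith
    have h7 : -Real.log (aa j) / (j * (j + 1)) ≤ 2 * K * h / j := by
      calc -Real.log (aa j) / (j * (j + 1)) ≤ K * (h ^ 2 * j) / (j * (j + 1)) := by
            rw [← hlj]
            gcongr
        _ = K * h ^ 2 / (j + 1) := by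
            field_simp
        _ ≤ K * (2 * h) / (j + 1) := by
            gcongr
            nlinarith
        _ ≤ K * (2 * h) / j := by
            apply div_le_div_of_nonneg_left (by positivity) hj0
            linarith
        _ = 2 * K * h / j := by ring
    calc _ ≤ C * h / j + 2 * K * h / j := add_le_add h6 h7
      _ = (C + 2 * K) * (h / j) := by ring
  refine h4.trans ?_
  have h5 : h / j ≤ Real.log n / (n * Real.sqrt n) := by
    have e : ∀ x : ℝ, 0 < x → Real.log x / x ^ (3 / 2 : ℝ) = Real.log x / (x * Real.sqrt x) := by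
      intro x hx
      have : x ^ (3 / 2 : ℝ) = x * Real.sqrt x := by
        rw [show (3 / 2 : ℝ) = 1 + 1 / 2 by norm_num, Real.rpow_add hx, Real.rpow_one,
          ← Real.sqrt_eq_rpow]
      rw [this]
    have hanti := Real.log_div_self_rpow_antitoneOn (a := 3 / 2) (by norm_num)
    have he : Real.exp ((3 / 2 : ℝ)⁻¹) ≤ 2 := by
      calc Real.exp ((3 / 2 : ℝ)⁻¹) ≤ Real.exp (Real.log 2) := by
            apply Real.exp_le_exp.2
            have := Real.log_two_gt_d9
            norm_num
            linarith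
        _ = 2 := Real.exp_log (by norm_num)
    have hnj : (n : ℝ) ≤ j := by exact_mod_cast hj
    have h6 := hanti (Set.mem_Ici.2 (he.trans hnr)) (Set.mem_Ici.2 (he.trans hjr)) hnj
    simp only at h6
    rw [e _ hj0, e _ hn0] at h6
    refine le_trans (le_of_eq ?_) h6
    rw [hh, div_div, mul_comm]
  gcongr

/-- comparison near `2 n` -/
lemma near_double : ∃ c : ℝ, 0 < c ∧ ∃ n₀ : ℕ, ∀ n : ℕ, n₀ ≤ n → ∀ s : ℕ, 1 ≤ s →
    (s : ℝ) ≤ Real.exp (c * Real.sqrt (Real.log n)) →
      (Kl.t n : ℝ) ^ ((1 : ℝ) / n) < (Kl.t (2 * n + s) : ℝ) ^ ((1 : ℝ) / (2 * n + s : ℕ)) := by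
  obtain ⟨K, hK, hlow⟩ := Pool.Agent.N505.AP.low
  have hl := lam_pos
  have hl1 := one_le_lam
  obtain ⟨n0, hn0⟩ := exists_nat_gt (Real.exp (4 * (Real.log (4 * lam) + Real.log lam) + 1))
  refine ⟨1 / (2 * Real.sqrt (K + 1)), by positivity, n0, fun n hn s hs1 hs => ?_⟩
  have hE1 : 1 < Real.exp (4 * (Real.log (4 * lam) + Real.log lam) + 1) := by
    apply Real.one_lt_exp_iff.2
    have h1 : 0 ≤ Real.log lam := Real.log_nonneg hl1
    have h2 : 0 ≤ Real.log (4 * lam) := Real.log_nonneg (by linarith)
    linarith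
  have hnr : Real.exp (4 * (Real.log (4 * lam) + Real.log lam) + 1) < n := by
    refine hn0.trans_le ?_
    exact_mod_cast hn
  have hn1 : 1 ≤ n := by
    have : (0 : ℝ) < n := by linarith
    exact_mod_cast this
  have hnpos : (0 : ℝ) < n := by exact_mod_cast hn1
  have hlogn : 4 * (Real.log (4 * lam) + Real.log lam) + 1 < Real.log n := by
    rw [← Real.log_exp (4 * (Real.log (4 * lam) + Real.log lam) + 1)]
    exact Real.log_lt_log (Real.exp_pos _) hnr
  have hlog0 : 0 ≤ Real.log n := Real.log_nonneg (by exact_mod_cast hn1)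
  have hloglam : 0 ≤ Real.log lam := Real.log_nonneg hl1
  apply lt_of_D hn1 (by omega)
  have h1 : (1 / 2) * Real.log n + 2 * Real.log (aa n) ≤
      Real.log (4 * lam) + Real.log (aa (2 * n + 1)) := by
    have h2 := Real.log_le_log (by have := aa_pos hn1; positivity) (aa_bound' hn1)
    have h3 := aa_pos hn1
    have h4 := aa_pos (n := 2 * n + 1) (by omega)
    rw [Real.log_mul (by positivity) (by positivity), Real.log_pow, Real.log_sqrt hnpos.le,
      Real.log_mul (by positivity) (by positivity)] at h2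
    push_cast at h2
    linarith
  have h2 : Real.log (aa (2 * n + 1)) - (1 / 4 * Real.log n + Real.log lam) ≤
      Real.log (aa (2 * n + s)) := by
    rcases Nat.lt_or_ge s 2 with h3 | h3
    · have : s = 1 := by omega
      subst this
      linarith
    · obtain ⟨r, rfl⟩ : ∃ r, s = r + 1 := ⟨s - 1, by omega⟩
      have hr1 : 1 ≤ r := by omega
      have h4 := aa_mul (2 * n + 1) r
      have h5 := aa_pos (n := 2 * n + 1) (by omega)
      have h6 := aa_pos hr1
      have h7 := Real.log_le_log (by positivity) h4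
      rw [Real.log_mul h5.ne' h6.ne', show 2 * n + 1 + r = 2 * n + (r + 1) by ring] at h7
      have h8 : -(1 / 4 * Real.log n + Real.log lam) ≤ Real.log (aa r) := by
        rcases Nat.lt_or_ge r 2 with h9 | h9
        · have : r = 1 := by omega
          subst this
          have h10 : lam⁻¹ ≤ aa 1 := by
            unfold aa
            rw [pow_one, div_eq_mul_inv]
            have : (1 : ℝ) ≤ t 1 := by exact_mod_cast t_one
            exact le_mul_of_one_le_left (by positivity) this
          have h11 := Real.log_le_log (by positivity) h10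
          rw [Real.log_inv] at h11
          linarith
        · have h10 := hlow r h9
          have h11 : 1 ≤ aa r * Real.exp (K * Real.log r ^ 2) := by
            unfold aa
            rw [div_mul_eq_mul_div, le_div_iff₀ (by positivity), one_mul]
            exact h10
          have h12 := Real.log_nonneg h11
          rw [Real.log_mul h6.ne' (Real.exp_pos _).ne', Real.log_exp] at h12
          have hr0 : (1 : ℝ) ≤ r := by exact_mod_cast hr1
          have h13 : Real.log r ≤ 1 / (2 * Real.sqrt (K + 1)) * Real.sqrt (Real.log n) := by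
            rw [← Real.log_exp (1 / (2 * Real.sqrt (K + 1)) * Real.sqrt (Real.log n))]
            apply Real.log_le_log (by linarith)
            refine le_trans ?_ hs
            push_cast
            linarith
          have h14 : 0 ≤ Real.log r := Real.log_nonneg hr0
          have h15 : Real.log r ^ 2 ≤ 1 / (4 * (K + 1)) * Real.log n := by
            calc Real.log r ^ 2 ≤ (1 / (2 * Real.sqrt (K + 1)) * Real.sqrt (Real.log n)) ^ 2 := by
                  gcongr
              _ = 1 / (4 * (K + 1)) * Real.log n := by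
                  rw [mul_pow, div_pow, mul_pow, Real.sq_sqrt hlog0, Real.sq_sqrt (by linarith)]
                  norm_num
          have h16 : K * Real.log r ^ 2 ≤ 1 / 4 * Real.log n := by
            calc K * Real.log r ^ 2 ≤ (K + 1) * (1 / (4 * (K + 1)) * Real.log n) := by
                  apply mul_le_mul (by linarith) h15 (by positivity) (by linarith)
              _ = 1 / 4 * Real.log n := by
                  field_simp
          linarith
      linarith
  have h3 : 2 * Real.log (aa n) < Real.log (aa (2 * n + s)) := by linarith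
  have h4 := Real.log_nonpos (aa_nonneg n) (aa_le_one n)
  unfold D
  rw [div_lt_div_iff₀ hnpos (by positivity)]
  push_cast
  nlinarith

/-- **Theorem.** Let `τ n = t(n)^(1/n)`, where `t n` is the number of fixed polyominoes with `n` cells.
There are constants `C`, `c`, `c'` > 0 such that for all `n ≥ 2` (1) `τ n < τ m` for all `m ≥ C n log n`, and
(2) at least `c √n` integers `j` with `n ≤ j ≤ C n log n` have `τ j < τ (j + 1)`; moreover
(3) `τ n < τ (2 n + s)` for all large `n` and all `1 ≤ s ≤ exp(c' √(log n))`. -/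
theorem result : ∃ C c c' : ℝ, 0 < C ∧ 0 < c ∧ 0 < c' ∧ (∀ n : ℕ, 2 ≤ n →
    (∀ m : ℕ, C * (n * Real.log n) ≤ m →
      (Kl.t n : ℝ) ^ ((1 : ℝ) / n) < (Kl.t m : ℝ) ^ ((1 : ℝ) / m)) ∧
    c * Real.sqrt n ≤ (((range (⌊C * (n * Real.log n)⌋₊ + 1)).filter (fun j : ℕ => n ≤ j ∧
      (Kl.t j : ℝ) ^ ((1 : ℝ) / j) < (Kl.t (j + 1) : ℝ) ^ ((1 : ℝ) / (j + 1 : ℕ)))).card : ℝ)) ∧
    ∃ n₀ : ℕ, ∀ n : ℕ, n₀ ≤ n → ∀ s : ℕ, 1 ≤ s → (s : ℝ) ≤ Real.exp (c' * Real.sqrt (Real.log n)) →
      (Kl.t n : ℝ) ^ ((1 : ℝ) / n) < (Kl.t (2 * n + s) : ℝ) ^ ((1 : ℝ) / (2 * n + s : ℕ)) := by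
  classical
  obtain ⟨c, hc, hup⟩ := la_upper
  obtain ⟨K, hK, hlow⟩ := Pool.Agent.N505.AP.low
  obtain ⟨B, hB, hincr⟩ := incr
  have hl := lam_pos
  obtain ⟨C, hC8, hfar⟩ := far (c := c / 2) (by positivity) hK
  have hlowD : ∀ m : ℕ, 2 ≤ m → -(K * Real.log m ^ 2 / m) ≤ D m := by
    intro m hm
    have hm0 : (0 : ℝ) < m := by positivity
    have h4 := hlow m hm
    have h5 := aa_pos (n := m) (by omega)
    have h6 : 1 ≤ aa m * Real.exp (K * Real.log m ^ 2) := by
      unfold aa
      rw [div_mul_eq_mul_div, le_div_iff₀ (by positivity), one_mul]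
      exact h4
    have h7 := Real.log_nonneg h6
    rw [Real.log_mul h5.ne' (Real.exp_pos _).ne', Real.log_exp] at h7
    unfold D
    rw [← neg_div]
    gcongr
    linarith
  have hD : ∀ n : ℕ, 2 ≤ n → D n ≤ -(c * (Real.log n / n)) := by
    intro n hn
    have hn0 : (0 : ℝ) < n := by positivity
    unfold D
    rw [div_le_iff₀ hn0]
    refine (hup n hn).trans (le_of_eq ?_)
    field_simp
  have hgap : ∀ n : ℕ, 2 ≤ n → ∀ m : ℕ, C * (n * Real.log n) ≤ m → 2 ≤ m ∧
      c / 2 * (Real.log n / n) ≤ D m - D n := by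
    intro n hn m hm
    have hnr : (2 : ℝ) ≤ n := by exact_mod_cast hn
    have hlogn : Real.log 2 ≤ Real.log n := Real.log_le_log (by norm_num) hnr
    have hlog2 := Real.log_two_gt_d9
    have hm2 : 2 ≤ m := by
      have h1 : (1 : ℝ) ≤ n * Real.log n := by nlinarith
      have h2 : (2 : ℝ) ≤ m := by nlinarith
      exact_mod_cast h2
    have h1 := hfar n hn m hm
    have h2 := hlowD m hm2
    have h3 := hD n hn
    exact ⟨hm2, by linarith⟩
  obtain ⟨c', hc', hnear⟩ := near_double
  refine ⟨C, c / 2 / B, c', by linarith, by positivity, hc', fun n hn => ⟨fun m hm => ?_, ?_⟩, hnear⟩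
  · obtain ⟨h1, h2⟩ := hgap n hn m hm
    apply lt_of_D (by omega) (by omega)
    have hnr : (2 : ℝ) ≤ n := by exact_mod_cast hn
    have hlogn : 0 < Real.log n := Real.log_pos (by linarith)
    have : 0 < c / 2 * (Real.log n / n) := by positivity
    linarith
  · have hnr : (2 : ℝ) ≤ n := by exact_mod_cast hn
    have hn0 : (0 : ℝ) < n := by linarith
    have hlogn : 0 < Real.log n := Real.log_pos (by linarith)
    set M := ⌊C * (n * Real.log n)⌋₊ + 1 with hM
    have hMr : C * (n * Real.log n) ≤ M := by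
      rw [hM]
      push_cast
      exact (Nat.lt_floor_add_one _).le
    obtain ⟨hM2, hgapM⟩ := hgap n hn M hMr
    have hnM : n ≤ M := by
      have hlogn' : Real.log 2 ≤ Real.log n := Real.log_le_log (by norm_num) hnr
      have hlog2 := Real.log_two_gt_d9
      have h0 : (1 : ℝ) ≤ C * Real.log n := by nlinarith
      have h1 : (n : ℝ) ≤ M := by
        calc (n : ℝ) = n * 1 := (mul_one _).symm
          _ ≤ n * (C * Real.log n) := by gcongr
          _ = C * (n * Real.log n) := by ring
          _ ≤ M := hMr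
      exact_mod_cast h1
    set G := (range M).filter (fun j : ℕ => n ≤ j ∧
      (Kl.t j : ℝ) ^ ((1 : ℝ) / j) < (Kl.t (j + 1) : ℝ) ^ ((1 : ℝ) / (j + 1 : ℕ))) with hG
    set b := B * (Real.log n / (n * Real.sqrt n)) with hb
    have hb0 : 0 < b := by
      have : 0 < Real.sqrt n := Real.sqrt_pos.2 hn0
      positivity
    have h1 : D M - D n = ∑ j ∈ Ico n M, (D (j + 1) - D j) := (sum_Ico_sub D hnM).symm
    have h2 : ∑ j ∈ Ico n M, (D (j + 1) - D j) ≤ ∑ j ∈ Ico n M, (if j ∈ G then b else 0) := by
      refine sum_le_sum (fun j hj => ?_)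
      rw [mem_Ico] at hj
      by_cases hjG : j ∈ G
      · rw [if_pos hjG]
        exact hincr n j hn hj.1
      · rw [if_neg hjG]
        by_contra hcon
        push Not at hcon
        apply hjG
        rw [hG, mem_filter, mem_range]
        exact ⟨hj.2, hj.1, lt_of_D (by omega) (by omega) (by linarith)⟩
    have h3 : ∑ j ∈ Ico n M, (if j ∈ G then b else 0) ≤ (G.card : ℝ) * b := by
      rw [← sum_filter, sum_const, nsmul_eq_mul]
      have : ((Ico n M).filter (fun j => j ∈ G)).card ≤ G.card := by
        apply card_le_card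
        intro j hj
        exact (mem_filter.1 hj).2
      have h4 : (((Ico n M).filter (fun j => j ∈ G)).card : ℝ) ≤ G.card := by exact_mod_cast this
      gcongr
    have h4 : c / 2 * (Real.log n / n) ≤ (G.card : ℝ) * b := by linarith
    have hs : 0 < Real.sqrt n := Real.sqrt_pos.2 hn0
    have h5 : c / 2 * (Real.log n / n) = (c / 2 / B * Real.sqrt n) * b := by
      rw [hb]
      field_simp
    rw [h5] at h4
    exact le_of_mul_le_mul_right h4 hb0

end Pool.Agent.Results.MP_d1c5d3_co.FarComparison
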